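import Mathlib
import Pool.Agent.H577R3.Key3

/-!
# Free solvable groups of class 3 are bi-interpretable with arithmetic

For every `n ≥ 2` the free solvable group `S_{n,3} = F_n / F_n^{(3)}` of class `3` and rank `n` is
bi-interpretable (with parameters) with the standard model of arithmetic.
-/

set_option autoImplicit false

namespace Pool.Agent.Results.MP_9cc2ee_lc.FreeSolvableThree

open Pool.Agent.H577R3

/-- For every `n ≥ 2` the free solvable group of class `3` and rank `n`, in the language of groups,
is bi-interpretable with `(ℕ; +, ·, 0, 1)`. -/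
theorem result : ∀ n : ℕ, 2 ≤ n →
    Bi.BiInterpNat (FreeGroup (Fin n) ⧸ derivedSeries (FreeGroup (Fin n)) 3) :=
  fun n hn => bi3 n hn

end Pool.Agent.Results.MP_9cc2ee_lc.FreeSolvableThree
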